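import Mathlib

/-!
# Orlin's conjecture holds for perfect graphs

Every perfect equistable graph is a general partition graph.
-/

set_option autoImplicit false

namespace Pool.Agent.Results.MP_ee7763_co.OrlinPerfect

open Finset

universe u

/-- `S` is an inclusion-maximal stable set of `G`. -/
def IsMaximalStable {V : Type u} (G : SimpleGraph V) (S : Set V) : Prop :=
  G.IsIndepSet S ∧ ∀ T : Set V, G.IsIndepSet T → S ⊆ T → T ⊆ S

/-- `G` is equistable: there are positive real weights on the vertices such that a set of vertices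
is a maximal stable set if and only if its total weight is `1`. -/
def IsEquistable {V : Type u} [Fintype V] (G : SimpleGraph V) : Prop :=
  ∃ φ : V → ℝ, (∀ v, 0 < φ v) ∧ ∀ S : Finset V, IsMaximalStable G (S : Set V) ↔ ∑ v ∈ S, φ v = 1

/-- `G` is a general partition graph: there are a set `U` and nonempty subsets `f x` of `U`, for
the vertices `x`, such that distinct vertices `x`, `y` are adjacent exactly when `f x` and `f y`
meet, and for every maximal stable set `S` the sets `f x`, `x ∈ S`, form a partition of `U`. -/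
def IsGeneralPartitionGraph {V : Type u} (G : SimpleGraph V) : Prop :=
  ∃ (U : Type u) (f : V → Set U), (∀ x, (f x).Nonempty) ∧
    (∀ x y, x ≠ y → (G.Adj x y ↔ (f x ∩ f y).Nonempty)) ∧
    ∀ S : Set V, IsMaximalStable G S → S.PairwiseDisjoint f ∧ (⋃ x ∈ S, f x) = Set.univ

/-- `G` is perfect: every induced subgraph has chromatic number equal to its clique number. -/
def IsPerfect {V : Type u} (G : SimpleGraph V) : Prop :=
  ∀ S : Set V, (G.induce S).chromaticNumber = (G.induce S).cliqueNum

section

variable {V : Type u} [Fintype V] [DecidableEq V] {G : SimpleGraph V}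

omit [Fintype V] in
theorem inter_le_one {K S : Finset V} (hK : G.IsClique (K : Set V))
    (hS : G.IsIndepSet (S : Set V)) : (K.filter (· ∈ S)).card ≤ 1 := by
  rw [Finset.card_le_one]
  intro a ha b hb
  rw [Finset.mem_filter] at ha hb
  by_contra hab
  exact hS ha.2 hb.2 hab (hK ha.1 hb.1 hab)

/-- The case of weights at most one: perfection of the induced subgraph on the support. -/
theorem cover_zero_one (hG : IsPerfect G) (w : V → ℕ) (hw : ∀ v, w v ≤ 1) (m : ℕ)
    (hm : ∀ K : Finset V, G.IsClique (K : Set V) → ∑ v ∈ K, w v ≤ m) :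
    ∃ S : Fin m → Finset V, (∀ i, G.IsIndepSet (S i : Set V)) ∧
      ∀ v, w v ≤ ∑ i, if v ∈ S i then 1 else 0 := by
  classical
  set X : Set V := {v | w v = 1} with hX
  have hcn : (G.induce X).cliqueNum ≤ m := by
    obtain ⟨s, hs⟩ := (G.induce X).exists_isNClique_cliqueNum
    rw [← hs.card_eq]
    have h1 : G.IsClique ((s.map (Function.Embedding.subtype _) : Finset V) : Set V) := by
      intro a ha b hb hab
      rw [Finset.mem_coe, Finset.mem_map] at ha hb
      obtain ⟨a', ha', rfl⟩ := ha
      obtain ⟨b', hb', rfl⟩ := hb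
      have hne : a' ≠ b' := fun h => hab (by rw [h])
      exact hs.isClique ha' hb' hne
    have h2 := hm _ h1
    rw [Finset.sum_map] at h2
    rw [Finset.sum_congr rfl (fun x _ => (x.2 : w (Function.Embedding.subtype _ x) = 1))] at h2
    simpa using h2
  have hcol : (G.induce X).Colorable m := by
    rw [← SimpleGraph.chromaticNumber_le_iff_colorable, hG X]
    exact_mod_cast hcn
  obtain ⟨c⟩ := hcol
  refine ⟨fun i => Finset.univ.filter (fun v => ∃ h : v ∈ X, c ⟨v, h⟩ = i), ?_, ?_⟩
  · intro i a ha b hb hab hadj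
    simp only [Finset.coe_filter, Finset.mem_univ, true_and, Set.mem_ofPred_eq] at ha hb
    obtain ⟨ha1, ha2⟩ := ha
    obtain ⟨hb1, hb2⟩ := hb
    have : (G.induce X).Adj ⟨a, ha1⟩ ⟨b, hb1⟩ := hadj
    exact c.valid this (ha2.trans hb2.symm)
  · intro v
    by_cases hv : v ∈ X
    · have h1 : w v = 1 := hv
      rw [h1]
      have : (1 : ℕ) = if v ∈ Finset.univ.filter (fun u => ∃ h : u ∈ X, c ⟨u, h⟩ = c ⟨v, hv⟩)
          then 1 else 0 := by
        rw [if_pos]
        simp only [Finset.mem_filter, Finset.mem_univ, true_and]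
        exact ⟨hv, trivial⟩
      calc 1 = _ := this
        _ ≤ _ := Finset.single_le_sum (f := fun i => if v ∈ Finset.univ.filter
            (fun u => ∃ h : u ∈ X, c ⟨u, h⟩ = i) then 1 else 0)
            (fun i _ => Nat.zero_le _) (Finset.mem_univ (c ⟨v, hv⟩))
    · have h1 : w v ≠ 1 := hv
      have h2 := hw v
      have h3 : w v = 0 := by omega
      rw [h3]
      exact Nat.zero_le _

/-- **Weighted perfection** (Lovász). If `G` is perfect and every clique has weight at most `m`,
then `m` stable sets cover every vertex as often as its weight. -/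
theorem cover (hG : IsPerfect G) : ∀ (N : ℕ) (w : V → ℕ), ∑ v, w v = N → ∀ m : ℕ,
    (∀ K : Finset V, G.IsClique (K : Set V) → ∑ v ∈ K, w v ≤ m) →
    ∃ S : Fin m → Finset V, (∀ i, G.IsIndepSet (S i : Set V)) ∧
      ∀ v, w v ≤ ∑ i, if v ∈ S i then 1 else 0 := by
  intro N
  induction N using Nat.strong_induction_on with
  | _ N ih =>
  intro w hN m hm
  by_cases hw : ∀ v, w v ≤ 1
  · exact cover_zero_one hG w hw m hm
  push Not at hw
  obtain ⟨x, hx⟩ := hw
  have hmpos : 2 ≤ m := by
    have := hm {x} (by simp)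
    rw [Finset.sum_singleton] at this
    omega
  obtain ⟨m, rfl⟩ : ∃ m', m = m' + 1 := ⟨m - 1, by omega⟩
  -- it suffices to find a stable set through `x` whose removal lowers all heavy cliques
  suffices hA : ∃ A : Finset V, x ∈ A ∧ G.IsIndepSet (A : Set V) ∧
      ∀ K : Finset V, G.IsClique (K : Set V) →
        ∑ v ∈ K, (w v - if v ∈ A then 1 else 0) ≤ m by
    obtain ⟨A, hxA, hAs, hAK⟩ := hA
    have hlt : ∑ v, (w v - if v ∈ A then 1 else 0) < N := by
      rw [← hN]
      apply Finset.sum_lt_sum (fun v _ => Nat.sub_le _ _)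
      refine ⟨x, Finset.mem_univ _, ?_⟩
      rw [if_pos hxA]
      omega
    obtain ⟨S, hS1, hS2⟩ := ih _ hlt _ rfl m hAK
    refine ⟨Fin.cons A S, ?_, ?_⟩
    · intro i
      refine Fin.cases ?_ (fun j => ?_) i
      · simpa using hAs
      · simpa using hS1 j
    · intro v
      rw [Fin.sum_univ_succ]
      have := hS2 v
      simp only [Fin.cons_zero, Fin.cons_succ]
      split_ifs at this ⊢ <;> omega
  -- lower the weight of `x`
  set w' : V → ℕ := fun v => w v - if v = x then 1 else 0 with hw'
  by_cases hB : ∀ K : Finset V, G.IsClique (K : Set V) → ∑ v ∈ K, w' v ≤ m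
  · refine ⟨{x}, by simp, by simp, ?_⟩
    intro K hK
    have := hB K hK
    simpa [hw'] using this
  · push Not at hB
    have hle : ∀ v, w' v ≤ w v := fun v => Nat.sub_le _ _
    have hlt : ∑ v, w' v < N := by
      rw [← hN]
      apply Finset.sum_lt_sum (fun v _ => hle v)
      refine ⟨x, Finset.mem_univ _, ?_⟩
      simp only [hw', if_true]
      omega
    obtain ⟨S, hS1, hS2⟩ := ih _ hlt w' rfl (m + 1) (fun K hK =>
      (Finset.sum_le_sum (fun v _ => hle v)).trans (hm K hK))
    have hx1 : 1 ≤ w' x := by simp only [hw', if_true]; omega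
    obtain ⟨i0, hi0⟩ : ∃ i, x ∈ S i := by
      by_contra hcon
      push Not at hcon
      have h := hS2 x
      rw [Finset.sum_eq_zero (fun i _ => if_neg (hcon i))] at h
      omega
    refine ⟨S i0, hi0, hS1 i0, ?_⟩
    intro K hK
    by_cases hKm : ∑ v ∈ K, w' v ≤ m
    · refine le_trans (Finset.sum_le_sum (fun v _ => ?_)) hKm
      simp only [hw']
      by_cases hv : v = x
      · subst hv; rw [if_pos hi0, if_pos rfl]
      · rw [if_neg hv]; exact Nat.sub_le _ _
    · -- a heavy clique avoids `x` and meets every `S i` in a vertex of positive weight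
      have hKle : ∑ v ∈ K, w v ≤ m + 1 := hm K hK
      have hxK : x ∉ K := by
        intro hxK
        have h1 : ∑ v ∈ K, w' v < ∑ v ∈ K, w v := by
          apply Finset.sum_lt_sum (fun v _ => hle v)
          refine ⟨x, hxK, ?_⟩
          simp only [hw', if_true]
          omega
        omega
      have hKeq : ∑ v ∈ K, w' v = ∑ v ∈ K, w v := by
        apply Finset.sum_congr rfl
        intro v hv
        have : v ≠ x := fun h => hxK (h ▸ hv)
        simp [hw', this]
      have hcount : ∑ v ∈ K, ∑ i, (if v ∈ S i then 1 else 0) =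
          ∑ i, (K.filter (· ∈ S i)).card := by
        rw [Finset.sum_comm]
        apply Finset.sum_congr rfl
        intro i _
        rw [Finset.card_filter]
      have hle1 : ∑ i, (K.filter (· ∈ S i)).card ≤ ∑ _i : Fin (m + 1), 1 :=
        Finset.sum_le_sum (fun i _ => inter_le_one hK (hS1 i))
      have hle2 : ∑ v ∈ K, w' v ≤ ∑ v ∈ K, ∑ i, (if v ∈ S i then 1 else 0) :=
        Finset.sum_le_sum (fun v _ => hS2 v)
      have hcard : ∑ _i : Fin (m + 1), 1 = m + 1 := by simp
      -- the clique meets `S i0`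
      have hmeet : (K.filter (· ∈ S i0)).card = 1 := by
        by_contra hne
        have h0 := inter_le_one hK (hS1 i0)
        have : ∑ i, (K.filter (· ∈ S i)).card < ∑ _i : Fin (m + 1), 1 := by
          apply Finset.sum_lt_sum (fun i _ => inter_le_one hK (hS1 i))
          exact ⟨i0, Finset.mem_univ _, by omega⟩
        omega
      obtain ⟨y, hy⟩ := Finset.card_eq_one.1 hmeet
      have hyK : y ∈ K ∧ y ∈ S i0 := by
        have : y ∈ K.filter (· ∈ S i0) := by rw [hy]; simp
        simpa using this
      -- coverage is exact on `K`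
      have hexact : w' y = ∑ i, (if y ∈ S i then 1 else 0) := by
        by_contra hne
        have h0 := hS2 y
        have : ∑ v ∈ K, w' v < ∑ v ∈ K, ∑ i, (if v ∈ S i then 1 else 0) := by
          apply Finset.sum_lt_sum (fun v _ => hS2 v)
          exact ⟨y, hyK.1, lt_of_le_of_ne h0 hne⟩
        omega
      have hy1 : 1 ≤ w' y := by
        rw [hexact]
        calc 1 = if y ∈ S i0 then 1 else 0 := by rw [if_pos hyK.2]
          _ ≤ _ := Finset.single_le_sum (f := fun i => if y ∈ S i then 1 else 0)
            (fun i _ => Nat.zero_le _) (Finset.mem_univ i0)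
      have hlt2 : ∑ v ∈ K, (w v - if v ∈ S i0 then 1 else 0) < ∑ v ∈ K, w v := by
        apply Finset.sum_lt_sum (fun v _ => Nat.sub_le _ _)
        refine ⟨y, hyK.1, ?_⟩
        rw [if_pos hyK.2]
        have := hle y
        omega
      omega

theorem exists_maximal (S : Finset V) (hS : G.IsIndepSet (S : Set V)) :
    ∃ T : Finset V, S ⊆ T ∧ IsMaximalStable G (T : Set V) := by
  classical
  obtain ⟨T, hT, hmax⟩ := Finset.exists_max_image
    (Finset.univ.filter (fun T : Finset V => S ⊆ T ∧ G.IsIndepSet (T : Set V))) Finset.card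
    ⟨S, by simp [hS]⟩
  rw [Finset.mem_filter] at hT
  refine ⟨T, hT.2.1, hT.2.2, ?_⟩
  intro T' hT' hsub
  have h1 : T ⊆ T'.toFinset := by
    intro x hx
    rw [Set.mem_toFinset]
    exact hsub hx
  have h2 := hmax T'.toFinset (by
    rw [Finset.mem_filter]
    refine ⟨Finset.mem_univ _, hT.2.1.trans h1, ?_⟩
    rw [Set.coe_toFinset]
    exact hT')
  have h3 := Finset.eq_of_subset_of_card_le h1 h2
  intro x hx
  rw [h3, Set.coe_toFinset]
  exact hx

open Classical in
/-- The family of all maximal stable sets. -/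
noncomputable def family (G : SimpleGraph V) : Finset (Finset V) :=
  Finset.univ.filter (fun S => IsMaximalStable G (S : Set V))

omit [DecidableEq V] in
theorem mem_family (S : Finset V) : S ∈ family G ↔ IsMaximalStable G (S : Set V) := by
  simp [family]

/-- A strong clique meets every maximal stable set. -/
def IsStrong (G : SimpleGraph V) (K : Finset V) : Prop :=
  G.IsClique (K : Set V) ∧ ∀ S : Finset V, IsMaximalStable G (S : Set V) → ∃ x ∈ K, x ∈ S

theorem sum_family_le {K : Finset V} (hK : G.IsClique (K : Set V)) :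
    ∑ S ∈ family G, (K.filter (· ∈ S)).card ≤ (family G).card := by
  rw [Finset.card_eq_sum_ones]
  apply Finset.sum_le_sum
  intro S hS
  rw [mem_family] at hS
  exact inter_le_one hK hS.1

theorem sum_family_lt {K : Finset V} (hK : G.IsClique (K : Set V)) (hs : ¬ IsStrong G K) :
    ∑ S ∈ family G, (K.filter (· ∈ S)).card < (family G).card := by
  rw [Finset.card_eq_sum_ones (family G)]
  apply Finset.sum_lt_sum
  · intro S hS
    rw [mem_family] at hS
    exact inter_le_one hK hS.1
  · by_contra hcon
    apply hs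
    refine ⟨hK, fun S hS => ?_⟩
    by_contra hne
    apply hcon
    refine ⟨S, (mem_family S).2 hS, ?_⟩
    rw [Nat.lt_one_iff, Finset.card_eq_zero, Finset.filter_eq_empty_iff]
    intro x hx hxS
    exact hne ⟨x, hx, hxS⟩

omit [Fintype V] in
theorem inter_eq_one {K S : Finset V} (hK : IsStrong G K)
    (hS : IsMaximalStable G (S : Set V)) : (K.filter (· ∈ S)).card = 1 := by
  apply le_antisymm (inter_le_one hK.1 hS.1)
  obtain ⟨x, hx, hxS⟩ := hK.2 S hS
  exact Finset.card_pos.2 ⟨x, by simp [hx, hxS]⟩

omit [Fintype V] in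
theorem sum_indicator (K : Finset V) {ι : Type*} (s : Finset ι) (S : ι → Finset V) :
    ∑ v ∈ K, ∑ i ∈ s, (if v ∈ S i then 1 else 0) = ∑ i ∈ s, (K.filter (· ∈ S i)).card := by
  rw [Finset.sum_comm]
  apply Finset.sum_congr rfl
  intro i _
  rw [Finset.card_filter]

/-- Cover the sum of all maximal stable sets and of `Z` by maximal stable sets. -/
theorem cover_maximal (hG : IsPerfect G) (Z : Finset V) (m : ℕ)
    (h : ∀ K : Finset V, G.IsClique (K : Set V) →
      (K.filter (· ∈ Z)).card + ∑ S ∈ family G, (K.filter (· ∈ S)).card ≤ m) :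
    ∃ S : Fin m → Finset V, (∀ i, IsMaximalStable G (S i : Set V)) ∧
      ∀ v, (if v ∈ Z then 1 else 0) + ∑ T ∈ family G, (if v ∈ T then 1 else 0) ≤
        ∑ i, if v ∈ S i then 1 else 0 := by
  obtain ⟨S, hS1, hS2⟩ := cover hG _
    (fun v => (if v ∈ Z then 1 else 0) + ∑ T ∈ family G, (if v ∈ T then 1 else 0)) rfl m (by
      intro K hK
      rw [Finset.sum_add_distrib, ← Finset.card_filter, sum_indicator K (family G) (fun T => T)]
      exact h K hK)
  choose T hT1 hT2 using fun i => exists_maximal (S i) (hS1 i)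
  refine ⟨T, hT2, fun v => (hS2 v).trans ?_⟩
  apply Finset.sum_le_sum
  intro i _
  by_cases hv : v ∈ S i
  · rw [if_pos hv, if_pos (hT1 i hv)]
  · rw [if_neg hv]; exact Nat.zero_le _

/-- Total weight of a list of vertex sets, computed vertex by vertex. -/
theorem weight_sum (φ : V → ℝ) {ι : Type*} (s : Finset ι) (S : ι → Finset V) :
    ∑ v, ((∑ i ∈ s, if v ∈ S i then 1 else 0 : ℕ) : ℝ) * φ v = ∑ i ∈ s, ∑ v ∈ S i, φ v := by
  simp only [Nat.cast_sum, Finset.sum_mul]
  rw [Finset.sum_comm]
  apply Finset.sum_congr rfl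
  intro i _
  simp [Finset.sum_ite_mem]

/-- In a perfect graph with equistable weights every vertex lies in a strong clique. -/
theorem vertex_strong (hG : IsPerfect G) (φ : V → ℝ) (hpos : ∀ v, 0 < φ v)
    (hφ : ∀ S : Finset V, IsMaximalStable G (S : Set V) → ∑ v ∈ S, φ v = 1) (x : V) :
    ∃ K : Finset V, IsStrong G K ∧ x ∈ K := by
  by_contra hcon
  push Not at hcon
  obtain ⟨S, hS1, hS2⟩ := cover_maximal hG {x} (family G).card (by
    intro K hK
    by_cases hxK : x ∈ K
    · have h1 : ¬ IsStrong G K := fun h => hcon K h hxK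
      have h2 := sum_family_lt hK h1
      have h3 : (K.filter (· ∈ ({x} : Finset V))).card ≤ 1 := by
        rw [Finset.card_le_one]
        intro a ha b hb
        rw [Finset.mem_filter, Finset.mem_singleton] at ha hb
        rw [ha.2, hb.2]
      omega
    · have h2 := sum_family_le hK
      have h3 : (K.filter (· ∈ ({x} : Finset V))).card = 0 := by
        rw [Finset.card_eq_zero, Finset.filter_eq_empty_iff]
        intro a ha hax
        rw [Finset.mem_singleton] at hax
        exact hxK (hax ▸ ha)
      omega)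
  have h1 : ∑ v, ((∑ i, if v ∈ S i then 1 else 0 : ℕ) : ℝ) * φ v = (family G).card := by
    rw [weight_sum φ Finset.univ S, Finset.sum_congr rfl (fun i _ => hφ _ (hS1 i))]
    simp
  have h2 : ∑ v, ((∑ T ∈ family G, if v ∈ T then 1 else 0 : ℕ) : ℝ) * φ v =
      (family G).card := by
    rw [weight_sum φ (family G) (fun T => T),
      Finset.sum_congr rfl (fun T hT => hφ _ ((mem_family T).1 hT))]
    simp
  have h3 : ∑ v, ((∑ T ∈ family G, if v ∈ T then 1 else 0 : ℕ) : ℝ) * φ v <
      ∑ v, ((∑ i, if v ∈ S i then 1 else 0 : ℕ) : ℝ) * φ v := by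
    apply Finset.sum_lt_sum
    · intro v _
      apply mul_le_mul_of_nonneg_right _ (hpos v).le
      exact_mod_cast (Nat.le_add_left _ _).trans (hS2 v)
    · refine ⟨x, Finset.mem_univ _, ?_⟩
      apply mul_lt_mul_of_pos_right _ (hpos x)
      have := hS2 x
      rw [if_pos (Finset.mem_singleton_self x)] at this
      have h4 : (∑ T ∈ family G, if x ∈ T then 1 else 0) < ∑ i, if x ∈ S i then 1 else 0 := by
        omega
      exact_mod_cast h4
  rw [h1, h2] at h3
  exact lt_irrefl _ h3

/-- In a perfect equistable graph every edge lies in a strong clique. -/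
theorem edge_strong (hG : IsPerfect G) (φ : V → ℝ) (hpos : ∀ v, 0 < φ v)
    (hφ : ∀ S : Finset V, IsMaximalStable G (S : Set V) ↔ ∑ v ∈ S, φ v = 1) (a b : V)
    (hab : G.Adj a b) : ∃ K : Finset V, IsStrong G K ∧ a ∈ K ∧ b ∈ K := by
  by_contra hcon
  push Not at hcon
  obtain ⟨S, hS1, hS2⟩ := cover_maximal hG {a, b} ((family G).card + 1) (by
    intro K hK
    have hcard : (K.filter (· ∈ ({a, b} : Finset V))).card ≤ 2 := by
      refine (Finset.card_le_card (t := {a, b}) ?_).trans Finset.card_le_two
      intro y hy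
      exact (Finset.mem_filter.1 hy).2
    by_cases hK2 : a ∈ K ∧ b ∈ K
    · have h1 : ¬ IsStrong G K := fun h => hcon K h hK2.1 hK2.2
      have h2 := sum_family_lt hK h1
      omega
    · have h2 := sum_family_le hK
      have h3 : (K.filter (· ∈ ({a, b} : Finset V))).card ≤ 1 := by
        rw [Finset.card_le_one]
        intro y hy z hz
        rw [Finset.mem_filter, Finset.mem_insert, Finset.mem_singleton] at hy hz
        obtain ⟨hyK, hy⟩ := hy
        obtain ⟨hzK, hz⟩ := hz
        rcases hy with rfl | rfl <;> rcases hz with rfl | rfl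
        · rfl
        · exact absurd ⟨hyK, hzK⟩ hK2
        · exact absurd ⟨hzK, hyK⟩ hK2
        · rfl
      omega)
  -- the difference of the two coverings
  set f : V → ℕ := fun v => ∑ T ∈ family G, if v ∈ T then 1 else 0 with hf
  set g : V → ℕ := fun v => ∑ i, if v ∈ S i then 1 else 0 with hg
  have hfg : ∀ v, f v ≤ g v := fun v => (Nat.le_add_left _ _).trans (hS2 v)
  have hab1 : ∀ v, (v = a ∨ v = b) → f v + 1 ≤ g v := by
    intro v hv
    have h1 := hS2 v
    rw [if_pos (by simpa using hv)] at h1
    change 1 + f v ≤ g v at h1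
    omega
  have hle1 : ∀ v, g v ≤ f v + 1 := by
    intro v
    obtain ⟨Q, hQ, hvQ⟩ := vertex_strong hG φ hpos (fun S hS => (hφ S).1 hS) v
    have h1 : ∑ y ∈ Q, g y = (family G).card + 1 := by
      rw [hg, sum_indicator Q Finset.univ S,
        Finset.sum_congr rfl (fun i _ => inter_eq_one hQ (hS1 i))]
      simp
    have h2 : ∑ y ∈ Q, f y = (family G).card := by
      rw [hf, sum_indicator Q (family G) (fun T => T),
        Finset.sum_congr rfl (fun T hT => inter_eq_one hQ ((mem_family T).1 hT))]
      simp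
    have h3 : ∑ y ∈ Q, (g y - f y) = 1 := by
      have h4 : ∑ y ∈ Q, (g y - f y) + ∑ y ∈ Q, f y = ∑ y ∈ Q, g y := by
        rw [← Finset.sum_add_distrib]
        exact Finset.sum_congr rfl (fun y _ => Nat.sub_add_cancel (hfg y))
      omega
    have h5 : g v - f v ≤ ∑ y ∈ Q, (g y - f y) :=
      Finset.single_le_sum (f := fun y => g y - f y) (fun _ _ => Nat.zero_le _) hvQ
    omega
  set T : Finset V := Finset.univ.filter (fun v => f v + 1 = g v) with hT
  have hsum : ∑ v ∈ T, φ v = 1 := by
    have h1 : ∑ v, (g v : ℝ) * φ v = (family G).card + 1 := by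
      rw [weight_sum φ Finset.univ S, Finset.sum_congr rfl (fun i _ => (hφ _).1 (hS1 i))]
      simp
    have h2 : ∑ v, (f v : ℝ) * φ v = (family G).card := by
      rw [weight_sum φ (family G) (fun T => T),
        Finset.sum_congr rfl (fun T hT => (hφ _).1 ((mem_family T).1 hT))]
      simp
    have h3 : ∑ v, ((g v : ℝ) * φ v - (f v : ℝ) * φ v) = 1 := by
      rw [Finset.sum_sub_distrib, h1, h2]
      ring
    rw [← h3, hT, Finset.sum_filter]
    apply Finset.sum_congr rfl
    intro v _
    by_cases hv : f v + 1 = g v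
    · rw [if_pos hv, ← hv]
      push_cast
      ring
    · rw [if_neg hv]
      have h4 : g v = f v := by
        have := hfg v
        have := hle1 v
        omega
      rw [h4]
      ring
  have hmax := (hφ T).2 hsum
  have haT : a ∈ T := by
    rw [hT, Finset.mem_filter]
    have h1 := hab1 a (Or.inl rfl)
    have h2 := hle1 a
    exact ⟨Finset.mem_univ _, by omega⟩
  have hbT : b ∈ T := by
    rw [hT, Finset.mem_filter]
    have h1 := hab1 b (Or.inr rfl)
    have h2 := hle1 b
    exact ⟨Finset.mem_univ _, by omega⟩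
  exact hmax.1 (Finset.mem_coe.2 haT) (Finset.mem_coe.2 hbT) hab.ne hab

end

/-- **Orlin's conjecture for perfect graphs.** Every finite perfect equistable graph is a general
partition graph. -/
theorem result {V : Type u} [Fintype V] (G : SimpleGraph V) (hG : IsPerfect G)
    (hE : IsEquistable G) : IsGeneralPartitionGraph G := by
  classical
  obtain ⟨φ, hpos, hφ⟩ := hE
  refine ⟨{K : Finset V // IsStrong G K}, fun x => {K | x ∈ K.1}, ?_, ?_, ?_⟩
  · intro x
    obtain ⟨K, hK, hx⟩ := vertex_strong hG φ hpos (fun S hS => (hφ S).1 hS) x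
    exact ⟨⟨K, hK⟩, hx⟩
  · intro x y hxy
    constructor
    · intro hadj
      obtain ⟨K, hK, hx, hy⟩ := edge_strong hG φ hpos hφ x y hadj
      exact ⟨⟨K, hK⟩, hx, hy⟩
    · rintro ⟨K, hx, hy⟩
      exact K.2.1 (Finset.mem_coe.2 hx) (Finset.mem_coe.2 hy) hxy
  · intro S hS
    constructor
    · intro x hx y hy hxy
      rw [Function.onFun, Set.disjoint_left]
      intro K hxK hyK
      exact hS.1 hx hy hxy (K.2.1 (Finset.mem_coe.2 hxK) (Finset.mem_coe.2 hyK) hxy)
    · rw [Set.eq_univ_iff_forall]
      intro K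
      obtain ⟨x, hxK, hxS⟩ := K.2.2 S.toFinset (by rw [Set.coe_toFinset]; exact hS)
      rw [Set.mem_toFinset] at hxS
      exact Set.mem_biUnion hxS hxK

end Pool.Agent.Results.MP_ee7763_co.OrlinPerfect
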